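import Pool.Agent.Lib.MP_1fb0bc_al.Ins.Exists
import Pool.Agent.Lib.MP_1fb0bc_al.Ins.Conv

/-!
# MP_1fb0bc_al: which fields admit such a nil algebra

The definitions `rpow`, `IsNil`, `prods`, `growth` and `GeneratesAdjoint` are in the short file
`Pool/Agent/Lib/MP_1fb0bc_al/Ins/Stmt.lean`.
-/

set_option autoImplicit false

namespace Pool.Agent.Results.MP_1fb0bc_al.AllFiniteFields

open Pool.Agent.NilAdjF

universe u v

/-- Over every finite field there is an infinite-dimensional, finitely generated nil algebra of
polynomial growth, all of whose matrix rings are nil, with a finitely generated adjoint group.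
Over an infinite field no nonzero nil algebra has a finitely generated adjoint group. -/
theorem result :
    (∀ (F : Type) [Field F] [Finite F],
      ∃ (R : Type) (_ : NonUnitalRing R) (_ : Module F R)
        (_ : IsScalarTower F R R) (_ : SMulCommClass F R R),
        IsNil R ∧
        (∀ m : ℕ, IsNil (Matrix (Fin m) (Fin m) R)) ∧
        ¬ FiniteDimensional F R ∧
        (∃ S : Set R, S.Finite ∧ NonUnitalAlgebra.adjoin F S = ⊤ ∧
          ∃ C : ℕ, ∀ n : ℕ, 1 ≤ n → growth F S n ≤ C * n ^ 22) ∧
        ∃ T : Set R, T.Finite ∧ GeneratesAdjoint T) ∧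
    (∀ (F : Type u) [Field F] [Infinite F] (R : Type v) [NonUnitalRing R] [Nontrivial R]
      [Module F R] [IsScalarTower F R R] [SMulCommClass F R R],
      IsNil R → ∀ T : Set R, T.Finite → ¬ GeneratesAdjoint T) := by
  refine ⟨fun F _ _ => exists_alg F, ?_⟩
  intro F _ _ R _ _ _ _ _ hnil T hT hgen
  exact not_finite_iff_infinite.2 inferInstance
    (finite_of_adjoint_fg (F := F) hnil (exists_ne 0) hT hgen)

end Pool.Agent.Results.MP_1fb0bc_al.AllFiniteFields
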